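import Mathlib

/-!
# `K_1/p` and `K_2/p` of a field, and relatively algebraically closed subfields
-/

set_option autoImplicit false

open scoped TensorProduct

namespace Pool.Agent.X264.ET

section defs

variable (p : ℕ) (F : Type) [Field F]

/-- the subgroup of `p`-th powers of `F*` -/
def powers : Subgroup Fˣ := (powMonoidHom p : Fˣ →* Fˣ).range

/-- `F*/F*^p`, written additively: Milnor's `K_1(F)/p` -/
def K1 : Type := Additive (Fˣ ⧸ powers p F)

/-- the multiplicative group `F*/F*^p` -/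
noncomputable instance instQuot : CommGroup (Fˣ ⧸ powers p F) := QuotientGroup.Quotient.commGroup _

noncomputable instance instK1 : AddCommGroup (K1 p F) :=
  @Additive.addCommGroup (Fˣ ⧸ powers p F) (instQuot p F)

variable {F}

/-- the class of a unit in `K_1(F)/p` -/
def cls (a : Fˣ) : K1 p F := Additive.ofMul (QuotientGroup.mk a : Fˣ ⧸ powers p F)

theorem cls_mul (a b : Fˣ) : cls p (a * b) = cls p a + cls p b := rfl

theorem cls_inv (a : Fˣ) : cls p a⁻¹ = - cls p a := rfl

theorem cls_one : cls p (1 : Fˣ) = 0 := rfl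

theorem cls_surjective : Function.Surjective (cls p : Fˣ → K1 p F) := by
  intro x
  obtain ⟨a, ha⟩ := QuotientGroup.mk_surjective (Additive.toMul x : Fˣ ⧸ powers p F)
  exact ⟨a, by rw [cls, ha]; rfl⟩

theorem cls_eq_zero {a : Fˣ} : cls p a = 0 ↔ ∃ b : Fˣ, b ^ p = a := by
  have h : cls p a = 0 ↔ (QuotientGroup.mk a : Fˣ ⧸ powers p F) = 1 := Iff.rfl
  rw [h, QuotientGroup.eq_one_iff]
  rfl

theorem K1.nsmul_eq_zero (x : K1 p F) : p • x = 0 := by
  obtain ⟨a, rfl⟩ := cls_surjective p x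
  have h : ∀ n : ℕ, cls p (a ^ n) = n • cls p a := by
    intro n
    induction n with
    | zero => rw [pow_zero, cls_one, zero_smul]
    | succ n ih => rw [pow_succ, cls_mul, ih, succ_nsmul]
  rw [← h, cls_eq_zero]
  exact ⟨a, rfl⟩

noncomputable instance : Module (ZMod p) (K1 p F) :=
  AddCommGroup.zmodModule (K1.nsmul_eq_zero p)

variable (F)

/-- the Steinberg relations `{a, 1 - a} = 0` -/
noncomputable def steinberg : Submodule (ZMod p) (K1 p F ⊗[ZMod p] K1 p F) :=
  Submodule.span (ZMod p) {t | ∃ a b : Fˣ, (a : F) + b = 1 ∧ t = cls p a ⊗ₜ cls p b}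

/-- Milnor's `K_2(F)/p` -/
abbrev K2 : Type := (K1 p F ⊗[ZMod p] K1 p F) ⧸ steinberg p F

end defs

section maps

variable (p : ℕ) {L F : Type} [Field L] [Field F] (f : L →+* F)

/-- the homomorphism of the groups of units -/
def unitsMap : Lˣ →* Fˣ := Units.map (f : L →* F)

theorem unitsMap_powers : powers p L ≤ (powers p F).comap (unitsMap f) := by
  rintro _ ⟨b, rfl⟩
  exact ⟨unitsMap f b, by simp only [powMonoidHom_apply, map_pow]⟩

/-- the homomorphism `L*/L*^p → F*/F*^p` -/
noncomputable def k1Hom : Lˣ ⧸ powers p L →* Fˣ ⧸ powers p F :=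
  QuotientGroup.map (powers p L) (powers p F) (unitsMap f) (unitsMap_powers p f)

/-- the same map, written additively -/
noncomputable def k1Fun (x : K1 p L) : K1 p F := Additive.ofMul (k1Hom p f (Additive.toMul x))

theorem k1Fun_zero : k1Fun p f 0 = 0 := map_one (k1Hom p f)

theorem k1Fun_add (x y : K1 p L) : k1Fun p f (x + y) = k1Fun p f x + k1Fun p f y :=
  map_mul (k1Hom p f) _ _

/-- the same homomorphism, written additively -/
noncomputable def k1Add : K1 p L →+ K1 p F where
  toFun := k1Fun p f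
  map_zero' := k1Fun_zero p f
  map_add' := k1Fun_add p f

/-- the homomorphism `K_1(L)/p → K_1(F)/p` of a homomorphism of fields -/
noncomputable def k1Map : K1 p L →ₗ[ZMod p] K1 p F := (k1Add p f).toZModLinearMap p

theorem k1Map_cls (a : Lˣ) : k1Map p f (cls p a) = cls p (unitsMap f a) := rfl

theorem map_steinberg_le : steinberg p L ≤
    (steinberg p F).comap (TensorProduct.map (k1Map p f) (k1Map p f)) := by
  refine Submodule.span_le.2 ?_
  rintro _ ⟨a, b, h, rfl⟩
  refine Submodule.subset_span ⟨unitsMap f a, unitsMap f b, ?_, ?_⟩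
  · change f a + f b = 1
    rw [← map_add, h, map_one]
  · rw [TensorProduct.map_tmul, k1Map_cls, k1Map_cls]

/-- the homomorphism `K_2(L)/p → K_2(F)/p` of a homomorphism of fields -/
noncomputable def k2Map : K2 p L →ₗ[ZMod p] K2 p F :=
  Submodule.mapQ _ _ (TensorProduct.map (k1Map p f) (k1Map p f)) (map_steinberg_le p f)

/-- the homomorphism of fields induces isomorphisms on `K_1/p` and `K_2/p` -/
def KIso : Prop := Function.Bijective (k1Map p f) ∧ Function.Bijective (k2Map p f)

end maps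

section relations

variable (p : ℕ) {F : Type} [Field F]

/-- `{a, -a} = 0` -/
theorem tmul_neg_mem (a : Fˣ) : cls p a ⊗ₜ[ZMod p] cls p (-a) ∈ steinberg p F := by
  by_cases h : (a : F) = 1
  · have ha : a = 1 := Units.ext h
    rw [ha, cls_one, TensorProduct.zero_tmul]
    exact Submodule.zero_mem _
  · have h1 : (1 : F) - a ≠ 0 := fun h' => h (sub_eq_zero.1 h').symm
    have h2 : (1 : F) - (a : F)⁻¹ ≠ 0 := by
      intro h'
      have h3 := sub_eq_zero.1 h'
      exact h (by rw [← inv_inv (a : F), ← h3, inv_one])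
    let b : Fˣ := Units.mk0 _ h1
    let c : Fˣ := Units.mk0 _ h2
    have hb : cls p a ⊗ₜ[ZMod p] cls p b ∈ steinberg p F :=
      Submodule.subset_span ⟨a, b, by simp [b], rfl⟩
    have hc : cls p a⁻¹ ⊗ₜ[ZMod p] cls p c ∈ steinberg p F :=
      Submodule.subset_span ⟨a⁻¹, c, by simp [c], rfl⟩
    have hne : -a = b * c⁻¹ := by
      rw [eq_mul_inv_iff_mul_eq]
      ext
      have ha0 : (a : F) ≠ 0 := a.ne_zero
      simp only [b, c, Units.val_mul, Units.val_neg, Units.val_mk0]
      field_simp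
      ring
    have e : cls p a ⊗ₜ[ZMod p] cls p (-a) =
        cls p a ⊗ₜ[ZMod p] cls p b + cls p a⁻¹ ⊗ₜ[ZMod p] cls p c := by
      rw [hne, cls_mul, cls_inv, cls_inv, TensorProduct.tmul_add, TensorProduct.tmul_neg,
        TensorProduct.neg_tmul]
    rw [e]
    exact Submodule.add_mem _ hb hc

/-- the relations `{a, -a} = 0` -/
noncomputable def negRel (F : Type) [Field F] : Submodule (ZMod p) (K1 p F ⊗[ZMod p] K1 p F) :=
  Submodule.span (ZMod p) {t | ∃ a : Fˣ, t = cls p a ⊗ₜ cls p (-a)}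

theorem negRel_le : negRel p F ≤ steinberg p F := by
  refine Submodule.span_le.2 ?_
  rintro _ ⟨a, rfl⟩
  exact tmul_neg_mem p a

theorem cls_neg (a : Fˣ) : cls p (-a) = cls p (-1) + cls p a := by
  rw [← cls_mul]
  congr 1
  ext
  simp

/-- antisymmetry modulo the relations `{a, -a} = 0` -/
theorem swap_mem (x y : K1 p F) : x ⊗ₜ[ZMod p] y + y ⊗ₜ[ZMod p] x ∈ negRel p F := by
  obtain ⟨a, rfl⟩ := cls_surjective p x
  obtain ⟨b, rfl⟩ := cls_surjective p y
  have h1 : cls p (a * b) ⊗ₜ[ZMod p] cls p (-(a * b)) ∈ negRel p F :=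
    Submodule.subset_span ⟨a * b, rfl⟩
  have h2 : cls p a ⊗ₜ[ZMod p] cls p (-a) ∈ negRel p F := Submodule.subset_span ⟨a, rfl⟩
  have h3 : cls p b ⊗ₜ[ZMod p] cls p (-b) ∈ negRel p F := Submodule.subset_span ⟨b, rfl⟩
  have e : cls p a ⊗ₜ[ZMod p] cls p b + cls p b ⊗ₜ[ZMod p] cls p a =
      cls p (a * b) ⊗ₜ[ZMod p] cls p (-(a * b)) - cls p a ⊗ₜ[ZMod p] cls p (-a)
        - cls p b ⊗ₜ[ZMod p] cls p (-b) := by
    rw [cls_neg p (a * b), cls_neg p a, cls_neg p b, cls_mul]
    simp only [TensorProduct.tmul_add, TensorProduct.add_tmul]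
    abel
  rw [e]
  exact Submodule.sub_mem _ (Submodule.sub_mem _ h1 h2) h3

end relations

end Pool.Agent.X264.ET
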