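import Pool.Agent.X264.ET.Red

/-!
# Maximal pro-`p` Galois groups and fields of finite transcendence degree
-/

set_option autoImplicit false

open scoped TensorProduct

namespace Pool.Agent.X264.ET

section sub

variable (p : ℕ) [Fact p.Prime] (F : Type) [Field F] [Finite (K1 p F)]

/-- the finite set of elements -/
theorem exists_finset :
    ∃ S : Finset F, S.card ≤ (Module.finrank (ZMod p) (K1 p F) + 1).choose 2 ∧
      ∀ L : Subfield F, (∀ x ∈ S, x ∈ L) → (∀ x : F, x ^ p ∈ L → x ∈ L) →
        KIso p L.subtype := by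
  classical
  obtain ⟨-, A, hA, hA'⟩ := finrank_quot_le p F
  obtain ⟨B, hB, hB'⟩ := exists_relations p F
  refine ⟨(A ∪ B).image (fun u : Fˣ => (u : F)), ?_, ?_⟩
  · refine Finset.card_image_le.trans ((Finset.card_union_le A B).trans ?_)
    have e : (Module.finrank (ZMod p) (K1 p F) + 1).choose 2 =
        Module.finrank (ZMod p) (K1 p F) + (Module.finrank (ZMod p) (K1 p F)).choose 2 := by
      rw [Nat.choose_succ_succ' (Module.finrank (ZMod p) (K1 p F)) 1, Nat.choose_one_right]
    rw [e]
    omega
  · intro L hS hL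
    have hAL : ∀ a ∈ A, (a : F) ∈ L := fun a ha =>
      hS _ (Finset.mem_image_of_mem _ (Finset.mem_union_left _ ha))
    have hBL : ∀ a ∈ B, (a : F) ∈ L := fun a ha =>
      hS _ (Finset.mem_image_of_mem _ (Finset.mem_union_right _ ha))
    have h1 : Function.Bijective (k1Map p L.subtype) := by
      constructor
      · refine k1_injective p L.subtype fun x y hxy => ?_
        have hy : y ∈ L := hL y (by rw [hxy]; exact x.2)
        exact ⟨⟨y, hy⟩, rfl⟩
      · rw [← LinearMap.range_eq_top, eq_top_iff, ← hA', Submodule.span_le]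
        rintro _ ⟨a, ha, rfl⟩
        have haL : (a : F) ∈ L := by
          rcases ha with rfl | ha
          · have : ((-1 : Fˣ) : F) = -1 := by simp
            rw [this]
            exact L.neg_mem L.one_mem
          · exact hAL a ha
        have hne : (⟨(a : F), haL⟩ : L) ≠ 0 := by
          intro h
          exact a.ne_zero (congrArg Subtype.val h)
        refine ⟨cls p (Units.mk0 _ hne), ?_⟩
        rw [k1Map_cls]
        congr 1
        ext
        rfl
    exact ⟨h1, k2_bijective p L.subtype h1 B hB' fun a ha => ⟨⟨a, hBL a ha⟩, rfl⟩⟩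

end sub

/-- `L` has transcendence degree at most `N` over its prime field: all elements of `L` are algebraic
over a subfield which is generated by `N` elements -/
def TrdegLe (L : Type) [Field L] (N : ℕ) : Prop :=
  ∃ S : Finset L, S.card ≤ N ∧ ∀ x : L, IsAlgebraic (Subfield.closure (S : Set L)) x

/-- `L` is relatively algebraically closed in `F` -/
def IsRelClosed {F : Type} [Field F] (L : Subfield F) : Prop :=
  ∀ x : F, IsAlgebraic L x → x ∈ L

theorem IsRelClosed.pow {F : Type} [Field F] {L : Subfield F} (hL : IsRelClosed L) {p : ℕ}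
    (hp : p ≠ 0) (x : F) (hx : x ^ p ∈ L) : x ∈ L := by
  refine hL x ⟨Polynomial.X ^ p - Polynomial.C ⟨x ^ p, hx⟩, ?_, ?_⟩
  · exact Polynomial.X_pow_sub_C_ne_zero (Nat.pos_of_ne_zero hp) _
  · simp only [map_sub, map_pow, Polynomial.aeval_X, Polynomial.aeval_C]
    exact sub_self _

/-- the relative algebraic closure of the subfield generated by a finite set -/
theorem exists_relClosed {F : Type} [Field F] (S : Finset F) :
    ∃ L : Subfield F, IsRelClosed L ∧ (∀ x ∈ S, x ∈ L) ∧ TrdegLe L S.card := by
  classical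
  let K := Subfield.closure (S : Set F)
  let L : Subfield F := (algebraicClosure K F).toSubfield
  have hmem : ∀ x : F, x ∈ L ↔ IsAlgebraic K x := fun x => mem_algebraicClosure_iff
  have hS : ∀ x ∈ S, x ∈ L := fun x hx =>
    (hmem x).2 (isAlgebraic_algebraMap (⟨x, Subfield.subset_closure hx⟩ : K))
  refine ⟨L, ?_, hS, ?_⟩
  · intro x hx
    rw [hmem]
    have hx' : IsAlgebraic (algebraicClosure K F) x := hx
    exact hx'.restrictScalars K
  · let S' : Finset L := S.subtype (fun x => x ∈ L)
    have hmap : (Subfield.closure (S' : Set L)).map L.subtype = K := by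
      rw [RingHom.map_field_closure]
      congr 1
      ext x
      constructor
      · rintro ⟨y, hy, rfl⟩
        exact (Finset.mem_subtype.1 hy)
      · intro hx
        exact ⟨⟨x, hS x hx⟩, Finset.mem_subtype.2 hx, rfl⟩
    refine ⟨S', ?_, ?_⟩
    · rw [Finset.card_subtype]
      exact Finset.card_filter_le _ _
    · intro x
      have hx : IsAlgebraic K (L.subtype x) := (hmem x).1 x.2
      have hle : ∀ y : Subfield.closure (S' : Set L), L.subtype y.1 ∈ K := fun y => by
        rw [← hmap]; exact ⟨y.1, y.2, rfl⟩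
      let f : Subfield.closure (S' : Set L) →+* K :=
        (L.subtype.comp (Subfield.closure (S' : Set L)).subtype).codRestrict K hle
      refine hx.of_ringHom_of_comp_eq f L.subtype ?_ L.subtype.injective ?_
      · rintro ⟨y, hy⟩
        rw [← hmap] at hy
        obtain ⟨z, hz, hzy⟩ := hy
        exact ⟨⟨z, hz⟩, Subtype.ext hzy⟩
      · rfl

/-- the maximal `p`-extension of `F` in the algebraic closure: the compositum of the finite Galois
extensions of `p`-power degree -/
noncomputable def maxExt (p : ℕ) (F : Type) [Field F] : IntermediateField F (AlgebraicClosure F) :=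
  sSup {L : IntermediateField F (AlgebraicClosure F) |
    FiniteDimensional F L ∧ IsGalois F L ∧ ∃ k : ℕ, Module.finrank F L = p ^ k}

/-- the maximal pro-`p` Galois group `G_F(p)` with its Krull topology -/
abbrev GalP (p : ℕ) (F : Type) [Field F] : Type := maxExt p F ≃ₐ[F] maxExt p F

/-- the groups `G_F(p)` and `G_K(p)` are isomorphic as topological groups -/
def SameGal (p : ℕ) (F K : Type) [Field F] [Field K] : Prop := Nonempty (GalP p F ≃ₜ* GalP p K)

/-- the topological group `G_F(p)` has the property `P` -/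
def Holds (P : (G : Type) → [Group G] → [TopologicalSpace G] → Prop) (p : ℕ) (F : Type) [Field F] :
    Prop := P (GalP p F)

/-- `F` contains a primitive `p`-th root of unity and `F*/F*^p` has order `p^n`; by Kummer theory,
`n` is the minimal number of generators of `G_F(p)` -/
def HasRank (p n : ℕ) (F : Type) [Field F] : Prop :=
  (∃ ζ : F, IsPrimitiveRoot ζ p) ∧ Nat.card (K1 p F) = p ^ n

/-- **Hypothesis** (a theorem of Merkurjev-Suslin with Serre's criterion for isomorphisms of
pro-`p` groups): if `L ⊆ F` induces isomorphisms on `K_1/p` and `K_2/p`, then `G_F(p)` and `G_L(p)`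
are isomorphic -/
def MerkurjevSuslin (p : ℕ) : Prop :=
  ∀ (F : Type) [Field F] (L : Subfield F), (∃ ζ : L, IsPrimitiveRoot ζ p) →
    KIso p L.subtype → SameGal p F L

/-- **Hypothesis** (standard: complete discretely valued fields of characteristic zero and a given
residue field, and the roots of a uniformizer): the groups `G_F(p)` occur over fields of
characteristic zero -/
def LiftsToCharZero (p : ℕ) : Prop :=
  ∀ (n : ℕ) (F : Type) [Field F], HasRank p n F →
    ∃ (K : Type) (_ : Field K), CharZero K ∧ HasRank p n K ∧ SameGal p K F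

/-- a property of topological groups is invariant under isomorphisms -/
def IsInvariant (P : (G : Type) → [Group G] → [TopologicalSpace G] → Prop) : Prop :=
  ∀ (G H : Type) [Group G] [TopologicalSpace G] [Group H] [TopologicalSpace H],
    Nonempty (G ≃ₜ* H) → (P G ↔ P H)

section main

variable (p : ℕ) [Fact p.Prime] {n : ℕ}

theorem HasRank.finite {F : Type} [Field F] (h : HasRank p n F) : Finite (K1 p F) := by
  refine Nat.finite_of_card_ne_zero ?_
  rw [h.2]
  exact pow_ne_zero _ (Fact.out : p.Prime).ne_zero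

theorem HasRank.finrank {F : Type} [Field F] (h : HasRank p n F) :
    Module.finrank (ZMod p) (K1 p F) = n := by
  have := h.finite
  have h1 := Module.natCard_eq_pow_finrank (K := ZMod p) (V := K1 p F)
  rw [h.2, Nat.card_zmod] at h1
  exact (Nat.pow_right_injective (Fact.out : p.Prime).two_le h1).symm

omit [Fact p.Prime] in
theorem HasRank.root {F : Type} [Field F] (h : HasRank p n F) {L : Subfield F}
    (hL : ∀ x : F, x ^ p ∈ L → x ∈ L) : ∃ ζ : L, IsPrimitiveRoot ζ p := by
  obtain ⟨ζ, hζ⟩ := h.1
  have hζL : ζ ∈ L := hL ζ (by rw [hζ.pow_eq_one]; exact L.one_mem)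
  refine ⟨⟨ζ, hζL⟩, ?_⟩
  exact IsPrimitiveRoot.of_map_of_injective (f := L.subtype) hζ L.subtype.injective

/-- the reduction, for one field -/
theorem reduction {F : Type} [Field F] (h : HasRank p n F) :
    ∃ S : Finset F, S.card ≤ (n + 1).choose 2 ∧
      ∀ L : Subfield F, (∀ x ∈ S, x ∈ L) → (∀ x : F, x ^ p ∈ L → x ∈ L) →
        HasRank p n L ∧ KIso p L.subtype := by
  have := h.finite
  obtain ⟨S, hS, hL⟩ := exists_finset p F
  rw [h.finrank] at hS
  refine ⟨S, hS, fun L h1 h2 => ?_⟩
  obtain ⟨h3, h4⟩ := hL L h1 h2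
  exact ⟨⟨h.root p h2, by rw [Nat.card_congr (Equiv.ofBijective _ h3), h.2]⟩, h3, h4⟩

theorem exists_subfield {F : Type} [Field F] (h : HasRank p n F) (T : Finset F) :
    ∃ L : Subfield F, IsRelClosed L ∧ (∀ x ∈ T, x ∈ L) ∧
      TrdegLe L ((n + 1).choose 2 + T.card) ∧ HasRank p n L ∧ KIso p L.subtype := by
  classical
  obtain ⟨S, hS, hred⟩ := reduction p h
  obtain ⟨L, h1, h2, S', h3, h4⟩ := exists_relClosed (S ∪ T)
  refine ⟨L, h1, fun x hx => h2 x (Finset.mem_union_right _ hx), ⟨S', ?_, h4⟩, ?_⟩
  · have := Finset.card_union_le S T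
    omega
  · exact hred L (fun x hx => h2 x (Finset.mem_union_left _ hx))
      (h1.pow (Fact.out : p.Prime).ne_zero)

theorem iff_trdeg (hMS : MerkurjevSuslin p)
    (P : (G : Type) → [Group G] → [TopologicalSpace G] → Prop) (hP : IsInvariant P) :
    (∀ (F : Type) [Field F], HasRank p n F → Holds P p F) ↔
      ∀ (F : Type) [Field F], HasRank p n F → TrdegLe F ((n + 1).choose 2) → Holds P p F := by
  refine ⟨fun h F _ hF _ => h F hF, fun h F _ hF => ?_⟩
  obtain ⟨L, -, -, h2, h3, h4⟩ := exists_subfield p hF ∅
  rw [Finset.card_empty, add_zero] at h2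
  exact (hP _ _ (hMS F L h3.1 h4)).2 (h L h3 h2)

theorem iff_charZero (hMS : MerkurjevSuslin p) (hLC : LiftsToCharZero p)
    (P : (G : Type) → [Group G] → [TopologicalSpace G] → Prop) (hP : IsInvariant P) :
    (∀ (F : Type) [Field F], HasRank p n F → Holds P p F) ↔
      ∀ (F : Type) [Field F], CharZero F → HasRank p n F → TrdegLe F ((n + 1).choose 2) →
        Holds P p F := by
  refine ⟨fun h F _ _ hF _ => h F hF, fun h F _ hF => ?_⟩
  obtain ⟨K, _, hK, hK', hKF⟩ := hLC n F hF
  obtain ⟨L, -, -, h2, h3, h4⟩ := exists_subfield p hK' ∅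
  rw [Finset.card_empty, add_zero] at h2
  have hL : CharZero L := ⟨fun a b hab => by
    have h := congrArg L.subtype hab
    rw [map_natCast, map_natCast] at h
    exact Nat.cast_injective h⟩
  exact (hP _ _ hKF).1 ((hP _ _ (hMS K L h3.1 h4)).2 (h L hL h3 h2))

end main

end Pool.Agent.X264.ET
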