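import Pool.Agent.X264.ET.K

/-!
# Fields with finitely many classes of `p`-th powers: reduction to finite transcendence degree
-/

set_option autoImplicit false

open scoped TensorProduct

namespace Pool.Agent.X264.ET

section dim

variable (p : ℕ) [Fact p.Prime] (F : Type) [Field F] [Finite (K1 p F)]

instance : Module.Finite (ZMod p) (K1 p F) := Module.Finite.of_finite

/-- a spanning family of the minimal size which contains a given nonzero vector -/
theorem exists_family {V : Type} [AddCommGroup V] [Module (ZMod p) V] [Module.Finite (ZMod p) V]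
    (ε : V) (hε : ε ≠ 0) : ∃ (k : ℕ) (u : Fin (k + 1) → V), Module.finrank (ZMod p) V = k + 1 ∧
      u 0 = ε ∧ Submodule.span (ZMod p) (Set.range u) = ⊤ := by
  let W := V ⧸ Submodule.span (ZMod p) {ε}
  let w : Module.Basis (Fin (Module.finrank (ZMod p) W)) (ZMod p) W := Module.finBasis (ZMod p) W
  have hl : ∀ i, ∃ x : V, (Submodule.span (ZMod p) {ε}).mkQ x = w i := fun i =>
    (Submodule.span (ZMod p) {ε}).mkQ_surjective (w i)
  choose a ha using hl
  refine ⟨Module.finrank (ZMod p) W, Fin.cons ε a, ?_, rfl, ?_⟩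
  · have h1 := Submodule.finrank_quotient_add_finrank (Submodule.span (ZMod p) {ε})
    rw [finrank_span_singleton hε] at h1
    exact h1.symm
  · have hr : LinearMap.range (Submodule.span (ZMod p) {ε}).mkQ = ⊤ := Submodule.range_mkQ _
    have h2 : (Submodule.span (ZMod p) (Set.range (Fin.cons ε a : Fin (_ + 1) → V))).map
        (Submodule.span (ZMod p) {ε}).mkQ = ⊤ := by
      rw [eq_top_iff, ← w.span_eq, Submodule.span_le]
      rintro _ ⟨i, rfl⟩
      exact ⟨a i, Submodule.subset_span ⟨i.succ, by simp⟩, ha i⟩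
    have h3 := (LinearMap.map_eq_top_iff hr).1 h2
    rw [Submodule.ker_mkQ] at h3
    have h4 : Submodule.span (ZMod p) {ε} ≤
        Submodule.span (ZMod p) (Set.range (Fin.cons ε a : Fin (_ + 1) → V)) := by
      rw [Submodule.span_singleton_le_iff_mem]
      exact Submodule.subset_span ⟨0, by simp⟩
    rwa [sup_eq_left.2 h4] at h3

/-- the products of pairs of different elements of a spanning family, and one more element -/
noncomputable def pairProd {n : ℕ} (u : Fin n → K1 p F) (z : (K1 p F ⊗[ZMod p] K1 p F) ⧸ negRel p F) :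
    Option {s : Sym2 (Fin n) // ¬ s.IsDiag} → (K1 p F ⊗[ZMod p] K1 p F) ⧸ negRel p F
  | none => z
  | some s => (negRel p F).mkQ (u (Quot.out s.1).1 ⊗ₜ u (Quot.out s.1).2)

omit [Finite (K1 p F)] in
theorem span_pairProd {n : ℕ} (u : Fin n → K1 p F)
    (hu : Submodule.span (ZMod p) (Set.range u) = ⊤)
    (z : (K1 p F ⊗[ZMod p] K1 p F) ⧸ negRel p F)
    (hz : ∀ i, (negRel p F).mkQ (u i ⊗ₜ u i) ∈
      Submodule.span (ZMod p) (Set.range (pairProd p F u z))) :
    Submodule.span (ZMod p) (Set.range (pairProd p F u z)) = ⊤ := by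
  have h1 : ∀ i j, (negRel p F).mkQ (u i ⊗ₜ u j) ∈
      Submodule.span (ZMod p) (Set.range (pairProd p F u z)) := by
    intro i j
    by_cases hij : i = j
    · rw [← hij]; exact hz i
    · have hd : ¬ s(i, j).IsDiag := by simpa using hij
      have ho : s((Quot.out s(i, j)).1, (Quot.out s(i, j)).2) = s(i, j) := Quot.out_eq _
      have hmem : (negRel p F).mkQ (u (Quot.out s(i, j)).1 ⊗ₜ u (Quot.out s(i, j)).2) ∈
          Submodule.span (ZMod p) (Set.range (pairProd p F u z)) :=
        Submodule.subset_span ⟨some ⟨s(i, j), hd⟩, rfl⟩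
      rw [Sym2.eq_iff] at ho
      rcases ho with ho | ho
      · rw [ho.1, ho.2] at hmem
        exact hmem
      · rw [ho.1, ho.2] at hmem
        have h2 : (negRel p F).mkQ (u i ⊗ₜ u j) = -((negRel p F).mkQ (u j ⊗ₜ u i)) := by
          rw [← add_eq_zero_iff_eq_neg, ← map_add]
          exact (Submodule.Quotient.mk_eq_zero _).2 (swap_mem p (u i) (u j))
        rw [h2]
        exact Submodule.neg_mem _ hmem
  rw [Submodule.eq_top_iff']
  intro x
  obtain ⟨t, rfl⟩ := (negRel p F).mkQ_surjective x
  induction t using TensorProduct.induction_on with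
  | zero => rw [map_zero]; exact Submodule.zero_mem _
  | add x y hx hy => rw [map_add]; exact Submodule.add_mem _ hx hy
  | tmul x y =>
    have hx : x ∈ Submodule.span (ZMod p) (Set.range u) := by rw [hu]; trivial
    have hy : y ∈ Submodule.span (ZMod p) (Set.range u) := by rw [hu]; trivial
    induction hx using Submodule.span_induction with
    | mem x hx =>
      obtain ⟨i, rfl⟩ := hx
      induction hy using Submodule.span_induction with
      | mem y hy => obtain ⟨j, rfl⟩ := hy; exact h1 i j
      | zero => rw [TensorProduct.tmul_zero, map_zero]; exact Submodule.zero_mem _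
      | add a b _ _ ha hb => rw [TensorProduct.tmul_add, map_add]; exact Submodule.add_mem _ ha hb
      | smul c a _ ha => rw [TensorProduct.tmul_smul, map_smul]; exact Submodule.smul_mem _ _ ha
    | zero => rw [TensorProduct.zero_tmul, map_zero]; exact Submodule.zero_mem _
    | add a b _ _ ha hb => rw [TensorProduct.add_tmul, map_add]; exact Submodule.add_mem _ ha hb
    | smul c a _ ha =>
      rw [← TensorProduct.smul_tmul', map_smul]; exact Submodule.smul_mem _ _ ha

omit [Finite (K1 p F)] in
/-- `a ⊗ a = - a ⊗ (-1)` modulo the relations `{a, -a} = 0` -/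
theorem diag_eq (x : K1 p F) : (negRel p F).mkQ (x ⊗ₜ x) =
    -((negRel p F).mkQ (x ⊗ₜ cls p (-1))) := by
  obtain ⟨a, rfl⟩ := cls_surjective p x
  rw [← add_eq_zero_iff_eq_neg, ← map_add]
  refine (Submodule.Quotient.mk_eq_zero _).2 (Submodule.subset_span ⟨a, ?_⟩)
  rw [cls_neg p a, TensorProduct.tmul_add, add_comm]

/-- `1` if `-1` is not a `p`-th power, and `0` otherwise -/
noncomputable def exc : ℕ := by
  classical exact if cls p (-1 : Fˣ) = 0 then 0 else 1

omit [Finite (K1 p F)] in
theorem finrank_le_of_pairProd {n : ℕ} (u : Fin n → K1 p F)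
    (z : (K1 p F ⊗[ZMod p] K1 p F) ⧸ negRel p F)
    (h : Submodule.span (ZMod p) (Set.range (pairProd p F u z)) = ⊤) :
    Module.finrank (ZMod p) ((K1 p F ⊗[ZMod p] K1 p F) ⧸ negRel p F) ≤ n.choose 2 + 1 := by
  have h1 := finrank_range_le_card (R := ZMod p) (pairProd p F u z)
  rw [Set.finrank, h, finrank_top, Fintype.card_option, Sym2.card_subtype_not_diag,
    Fintype.card_fin] at h1
  exact h1

omit [Finite (K1 p F)] in
theorem finrank_le_of_pairProd_zero {n : ℕ} (u : Fin n → K1 p F)
    (h : Submodule.span (ZMod p) (Set.range (pairProd p F u 0)) = ⊤) :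
    Module.finrank (ZMod p) ((K1 p F ⊗[ZMod p] K1 p F) ⧸ negRel p F) ≤ n.choose 2 := by
  have h0 : Submodule.span (ZMod p) (Set.range (fun s => pairProd p F u 0 (some s))) = ⊤ := by
    rw [eq_top_iff, ← h, Submodule.span_le]
    rintro _ ⟨(_ | s), rfl⟩
    · exact Submodule.zero_mem _
    · exact Submodule.subset_span ⟨s, rfl⟩
  have h1 := finrank_range_le_card (R := ZMod p) (fun s => pairProd p F u 0 (some s))
  rw [Set.finrank, h0, finrank_top, Sym2.card_subtype_not_diag, Fintype.card_fin] at h1
  exact h1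

/-- a bound for the dimension of the tensors modulo the relations `{a, -a} = 0`, and a system of
generators of `F*/F*^p` together with `-1` -/
theorem finrank_quot_le :
    Module.finrank (ZMod p) ((K1 p F ⊗[ZMod p] K1 p F) ⧸ negRel p F) ≤
      (Module.finrank (ZMod p) (K1 p F)).choose 2 + exc p F ∧
    ∃ A : Finset Fˣ, A.card + exc p F ≤ Module.finrank (ZMod p) (K1 p F) ∧
      Submodule.span (ZMod p) (cls p '' (insert (-1) (A : Set Fˣ))) = ⊤ := by
  classical
  by_cases h0 : cls p (-1 : Fˣ) = 0
  · have hexc : exc p F = 0 := by rw [exc]; simp [h0]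
    let v : Module.Basis (Fin (Module.finrank (ZMod p) (K1 p F))) (ZMod p) (K1 p F) :=
      Module.finBasis (ZMod p) (K1 p F)
    rw [hexc, add_zero]
    constructor
    · refine finrank_le_of_pairProd_zero p F v (span_pairProd p F v v.span_eq 0 fun i => ?_)
      rw [diag_eq, h0, TensorProduct.tmul_zero, map_zero, neg_zero]
      exact Submodule.zero_mem _
    · have hl : ∀ i, ∃ a : Fˣ, cls p a = v i := fun i => cls_surjective p (v i)
      choose a ha using hl
      refine ⟨Finset.univ.image a, ?_, ?_⟩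
      · rw [add_zero]
        refine Finset.card_image_le.trans ?_
        rw [Finset.card_univ, Fintype.card_fin]
      · rw [eq_top_iff, ← v.span_eq, Submodule.span_le]
        rintro _ ⟨i, rfl⟩
        exact Submodule.subset_span ⟨a i, Or.inr (by simp), ha i⟩
  · have hexc : exc p F = 1 := by rw [exc]; simp [h0]
    obtain ⟨k, u, hk, hu0, hu⟩ := exists_family p (cls p (-1 : Fˣ)) h0
    rw [hexc]
    constructor
    · rw [hk]
      refine finrank_le_of_pairProd p F u ((negRel p F).mkQ (u 0 ⊗ₜ u 0))
        (span_pairProd p F u hu _ fun i => ?_)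
      rcases Fin.eq_zero_or_eq_succ i with rfl | ⟨j, rfl⟩
      · exact Submodule.subset_span ⟨none, rfl⟩
      · rw [diag_eq p F (u j.succ), ← hu0]
        apply Submodule.neg_mem
        have hij : j.succ ≠ 0 := Fin.succ_ne_zero j
        have hd : ¬ s(j.succ, (0 : Fin (k + 1))).IsDiag := by simpa using hij
        have ho : s((Quot.out s(j.succ, (0 : Fin (k + 1)))).1,
          (Quot.out s(j.succ, (0 : Fin (k + 1)))).2) = s(j.succ, 0) := Quot.out_eq _
        have hmem : (negRel p F).mkQ (u (Quot.out s(j.succ, (0 : Fin (k + 1)))).1 ⊗ₜ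
            u (Quot.out s(j.succ, (0 : Fin (k + 1)))).2) ∈
            Submodule.span (ZMod p) (Set.range
              (pairProd p F u ((negRel p F).mkQ (u 0 ⊗ₜ u 0)))) :=
          Submodule.subset_span ⟨some ⟨s(j.succ, 0), hd⟩, rfl⟩
        rw [Sym2.eq_iff] at ho
        rcases ho with ho | ho
        · rw [ho.1, ho.2] at hmem
          exact hmem
        · rw [ho.1, ho.2] at hmem
          have h2 : (negRel p F).mkQ (u j.succ ⊗ₜ u 0) = -((negRel p F).mkQ (u 0 ⊗ₜ u j.succ)) := by
            rw [← add_eq_zero_iff_eq_neg, ← map_add]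
            exact (Submodule.Quotient.mk_eq_zero _).2 (swap_mem p _ _)
          rw [h2]
          exact Submodule.neg_mem _ hmem
    · have hl : ∀ i : Fin k, ∃ a : Fˣ, cls p a = u i.succ := fun i => cls_surjective p _
      choose a ha using hl
      refine ⟨Finset.univ.image a, ?_, ?_⟩
      · rw [hk]
        refine Nat.succ_le_succ (Finset.card_image_le.trans ?_)
        rw [Finset.card_univ, Fintype.card_fin]
      · rw [eq_top_iff, ← hu, Submodule.span_le]
        rintro _ ⟨i, rfl⟩
        rcases Fin.eq_zero_or_eq_succ i with rfl | ⟨j, rfl⟩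
        · rw [hu0]
          exact Submodule.subset_span ⟨-1, Or.inl rfl, rfl⟩
        · exact Submodule.subset_span ⟨a j, Or.inr (by simp), ha j⟩

/-- finitely many Steinberg relations suffice, modulo the relations `{a, -a} = 0` -/
theorem exists_relations :
    ∃ B : Finset Fˣ, B.card ≤ (Module.finrank (ZMod p) (K1 p F)).choose 2 + exc p F ∧
      steinberg p F ≤ negRel p F ⊔
        Submodule.span (ZMod p) {t | ∃ a ∈ B, ∃ b : Fˣ, (a : F) + b = 1 ∧
          t = cls p a ⊗ₜ cls p b} := by
  classical
  let π := (negRel p F).mkQ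
  let St : Set (K1 p F ⊗[ZMod p] K1 p F) :=
    {t | ∃ a b : Fˣ, (a : F) + b = 1 ∧ t = cls p a ⊗ₜ cls p b}
  obtain ⟨b, hb, hs, hl⟩ := exists_linearIndependent (ZMod p) (π '' St)
  have hfin : Module.Finite (ZMod p) ((K1 p F ⊗[ZMod p] K1 p F) ⧸ negRel p F) := inferInstance
  have hbf : b.Finite := hl.setFinite
  have hcard : hbf.toFinset.card ≤ (Module.finrank (ZMod p) (K1 p F)).choose 2 + exc p F := by
    have h1 : Fintype.card hbf.toFinset ≤ Module.finrank (ZMod p)
        ((K1 p F ⊗[ZMod p] K1 p F) ⧸ negRel p F) := by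
      have e : hbf.toFinset ≃ b := Equiv.subtypeEquivRight (fun x => by simp)
      exact (hl.comp e e.injective).fintype_card_le_finrank
    rw [Fintype.card_coe] at h1
    exact h1.trans (finrank_quot_le p F).1
  -- choose the elements `a`
  have hch : ∀ x : hbf.toFinset, ∃ a : Fˣ, ∃ c : Fˣ, (a : F) + c = 1 ∧
      π (cls p a ⊗ₜ cls p c) = x.1 := by
    intro x
    obtain ⟨t, ⟨a, c, h, rfl⟩, hx⟩ := hb (hbf.mem_toFinset.1 x.2)
    exact ⟨a, c, h, hx⟩
  choose f g hfg hπ using hch
  refine ⟨Finset.univ.image f, ?_, ?_⟩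
  · refine (Finset.card_image_le).trans ?_
    rw [Finset.card_univ, Fintype.card_coe]
    exact hcard
  · intro t ht
    have h1 : π t ∈ Submodule.span (ZMod p) b := by
      rw [hs]
      have : π t ∈ (Submodule.span (ZMod p) St).map π := ⟨t, ht, rfl⟩
      rwa [Submodule.map_span] at this
    have h2 : Submodule.span (ZMod p) b ≤ (Submodule.span (ZMod p)
        {t | ∃ a ∈ Finset.univ.image f, ∃ b : Fˣ, (a : F) + b = 1 ∧
          t = cls p a ⊗ₜ cls p b}).map π := by
      refine Submodule.span_le.2 fun x hx => ?_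
      let x' : hbf.toFinset := ⟨x, hbf.mem_toFinset.2 hx⟩
      exact ⟨cls p (f x') ⊗ₜ cls p (g x'), Submodule.subset_span
        ⟨f x', Finset.mem_image_of_mem f (Finset.mem_univ _), g x', hfg x', rfl⟩, hπ x'⟩
    obtain ⟨s, hs', hst⟩ := h2 h1
    have h3 : t - s ∈ negRel p F := by
      rw [← Submodule.Quotient.mk_eq_zero]
      change π (t - s) = 0
      rw [map_sub, hst, sub_self]
    have : t = (t - s) + s := by abel
    rw [this]
    exact Submodule.add_mem_sup h3 hs'

end dim

section criterion

variable (p : ℕ) [Fact p.Prime] {L F : Type} [Field L] [Field F] (f : L →+* F)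

omit [Fact p.Prime] in
/-- the kernel of `K_1(L)/p → K_1(F)/p` is zero if `L` is closed under `p`-th roots -/
theorem k1_injective (h : ∀ (x : L) (y : F), y ^ p = f x → ∃ z : L, f z = y) :
    Function.Injective (k1Map p f) := by
  rw [injective_iff_map_eq_zero]
  intro x hx
  obtain ⟨a, rfl⟩ := cls_surjective p x
  rw [k1Map_cls, cls_eq_zero] at hx
  obtain ⟨b, hb⟩ := hx
  have hb' : (b : F) ^ p = f a := by
    have := congrArg (fun u : Fˣ => (u : F)) hb
    simpa [unitsMap] using this
  obtain ⟨z, hz⟩ := h a b hb'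
  have hz0 : z ≠ 0 := by
    rintro rfl
    rw [map_zero] at hz
    exact b.ne_zero hz.symm
  rw [cls_eq_zero]
  refine ⟨Units.mk0 z hz0, ?_⟩
  ext
  apply f.injective
  rw [Units.val_pow_eq_pow_val, Units.val_mk0, map_pow, hz, hb']

/-- bijectivity on `K_2/p` -/
theorem k2_bijective (h1 : Function.Bijective (k1Map p f)) (B : Finset Fˣ)
    (hB : steinberg p F ≤ negRel p F ⊔
        Submodule.span (ZMod p) {t | ∃ a ∈ B, ∃ b : Fˣ, (a : F) + b = 1 ∧
          t = cls p a ⊗ₜ cls p b})
    (hL : ∀ a ∈ B, ∃ c : L, f c = a) : Function.Bijective (k2Map p f) := by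
  let e : K1 p L ≃ₗ[ZMod p] K1 p F := LinearEquiv.ofBijective (k1Map p f) h1
  let E : (K1 p L ⊗[ZMod p] K1 p L) ≃ₗ[ZMod p] (K1 p F ⊗[ZMod p] K1 p F) :=
    TensorProduct.congr e e
  have hE : ∀ t, E t = TensorProduct.map (k1Map p f) (k1Map p f) t := fun t => rfl
  have hsub : steinberg p F ≤ (steinberg p L).map
      (TensorProduct.map (k1Map p f) (k1Map p f)) := by
    refine hB.trans (sup_le ?_ ?_)
    · refine Submodule.span_le.2 ?_
      rintro _ ⟨a, rfl⟩
      obtain ⟨x, hx⟩ := h1.2 (cls p a)
      obtain ⟨c, rfl⟩ := cls_surjective p x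
      refine ⟨cls p c ⊗ₜ cls p (-c), tmul_neg_mem p c, ?_⟩
      have h2 : k1Map p f (cls p (-c)) = cls p (-a) := by
        rw [cls_neg, map_add, hx, cls_neg p a, k1Map_cls]
        congr 2
        ext
        simp [unitsMap]
      rw [TensorProduct.map_tmul, hx, h2]
    · refine Submodule.span_le.2 ?_
      rintro _ ⟨a, ha, b, hab, rfl⟩
      obtain ⟨c, hc⟩ := hL a ha
      have hd : f (1 - c) = b := by rw [map_sub, map_one, hc, ← hab]; ring
      have hc0 : c ≠ 0 := by
        rintro rfl
        rw [map_zero] at hc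
        exact a.ne_zero hc.symm
      have hd0 : 1 - c ≠ 0 := by
        intro h
        rw [h, map_zero] at hd
        exact b.ne_zero hd.symm
      refine ⟨cls p (Units.mk0 c hc0) ⊗ₜ cls p (Units.mk0 (1 - c) hd0),
        Submodule.subset_span ⟨_, _, by simp, rfl⟩, ?_⟩
      have e1 : unitsMap f (Units.mk0 c hc0) = a := Units.ext hc
      have e2 : unitsMap f (Units.mk0 (1 - c) hd0) = b := Units.ext hd
      rw [TensorProduct.map_tmul, k1Map_cls, k1Map_cls, e1, e2]
  constructor
  · rw [injective_iff_map_eq_zero]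
    intro x hx
    obtain ⟨t, rfl⟩ := (steinberg p L).mkQ_surjective x
    have h2 : TensorProduct.map (k1Map p f) (k1Map p f) t ∈ steinberg p F :=
      (Submodule.Quotient.mk_eq_zero _).1 hx
    obtain ⟨s, hs, hst⟩ := hsub h2
    rw [← hE, ← hE] at hst
    have := E.injective hst
    rw [← this]
    exact (Submodule.Quotient.mk_eq_zero _).2 hs
  · intro y
    obtain ⟨t, rfl⟩ := (steinberg p F).mkQ_surjective y
    refine ⟨(steinberg p L).mkQ (E.symm t), ?_⟩
    have h3 : k2Map p f ((steinberg p L).mkQ (E.symm t)) =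
      (steinberg p F).mkQ (E (E.symm t)) := rfl
    rw [h3, LinearEquiv.apply_symm_apply]

end criterion

end Pool.Agent.X264.ET
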